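import Mathlib
import Pool.Agent.H51.RieszB

namespace Pool.Agent.Results.MP_1b30fb_an.Ratio
open Filter Topology
open scoped ENNReal

/-- The character `e_b(x) = exp(2 π i (b · x) / p)` of `Z_p^2`. -/
noncomputable def chr {p : ℕ} (b x : ZMod p × ZMod p) : ℂ :=
  Complex.exp (2 * Real.pi * Complex.I * ((b.1 * x.1 + b.2 * x.2).val : ℂ) / (p : ℂ))

/-- The matrix `T(E, B)`, where the frequency set `B` is listed as `b j`, `j ∈ E`. -/
noncomputable def Tmat {p : ℕ} (E : Finset (ZMod p × ZMod p)) (b : E → ZMod p × ZMod p) :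
    Matrix E E ℂ :=
  Matrix.of fun i j => chr (b j) (i : ZMod p × ZMod p)

open Classical in
/-- The squared condition number for the Euclidean operator norms, infinite when singular. -/
noncomputable def cond2 {n : Type} [Fintype n] [DecidableEq n] (T : Matrix n n ℂ) : ℝ≥0∞ :=
  if IsUnit T.det then
    ENNReal.ofReal (‖Matrix.toEuclideanCLM (n := n) (𝕜 := ℂ) T‖ ^ 2 *
      ‖Matrix.toEuclideanCLM (n := n) (𝕜 := ℂ) T⁻¹‖ ^ 2)
  else ⊤

/-- The Riesz ratio of `E`: the minimum over all frequency sets `B` with `|B| = |E|`. -/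
noncomputable def rho {p : ℕ} (E : Finset (ZMod p × ZMod p)) : ℝ≥0∞ :=
  ⨅ (b : E → ZMod p × ZMod p) (_ : Function.Injective b), cond2 (Tmat E b)

/-- The set `({0} × Z_p) ∪ {(t,t)} ∪ {(1,0)}`. -/
def Eset (p : ℕ) [NeZero p] : Finset (ZMod p × ZMod p) :=
  Finset.univ.filter (fun x => x.1 = 0 ∨ x.1 = x.2 ∨ x = (1, 0))

instance (n : ℕ) : NeZero (Nat.nth Nat.Prime n) := ⟨(Nat.prime_nth_prime n).ne_zero⟩

theorem card_Eset (p : ℕ) [NeZero p] : (Eset p).card ≤ 2 * p := by
  have h : Eset p ⊆ insert (1, 0) ((Finset.univ.image (fun t : ZMod p => ((0 : ZMod p), t))) ∪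
      ((Finset.univ.erase (0 : ZMod p)).image (fun t : ZMod p => (t, t)))) := by
    rintro ⟨x, y⟩ hx
    simp only [Eset, Finset.mem_filter, Finset.mem_univ, true_and] at hx
    rw [Finset.mem_insert, Finset.mem_union]
    by_cases h0 : x = 0
    · exact Or.inr (Or.inl (Finset.mem_image.2 ⟨y, Finset.mem_univ _, by rw [h0]⟩))
    · rcases hx with h | h | h
      · exact absurd h h0
      · subst h
        exact Or.inr (Or.inr (Finset.mem_image.2 ⟨x, by simp [h0], rfl⟩))
      · exact Or.inl h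
  have h1 := Finset.card_le_card h
  have h2 := Finset.card_insert_le ((1, 0) : ZMod p × ZMod p)
    ((Finset.univ.image (fun t : ZMod p => ((0 : ZMod p), t))) ∪
      ((Finset.univ.erase (0 : ZMod p)).image (fun t : ZMod p => (t, t))))
  have h3 := Finset.card_union_le (Finset.univ.image (fun t : ZMod p => ((0 : ZMod p), t)))
      ((Finset.univ.erase (0 : ZMod p)).image (fun t : ZMod p => (t, t)))
  have h4 := Finset.card_image_le (s := Finset.univ) (f := fun t : ZMod p => ((0 : ZMod p), t))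
  have h5 := Finset.card_image_le (s := Finset.univ.erase (0 : ZMod p))
    (f := fun t : ZMod p => (t, t))
  rw [Finset.card_erase_of_mem (Finset.mem_univ _)] at h5
  rw [Finset.card_univ, ZMod.card] at h4 h5
  have h6 := Nat.pos_of_ne_zero (NeZero.ne p)
  omega

theorem lower (p : ℕ) [NeZero p] (K : ℕ) (hp : 32 * K * K + 2 ≤ p) :
    (K : ℝ≥0∞) ≤ rho (Eset p) := by
  unfold rho
  refine le_iInf fun b => le_iInf fun _ => ?_
  unfold cond2
  split_ifs with hT
  · have h := H51.Riesz.main K hp (Eset p) (fun t => by simp [Eset]) (fun t => by simp [Eset])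
      (card_Eset p) b (Tmat (Eset p) b)
      (fun i j => by rw [ZMod.stdAddChar_apply, ZMod.toCircle_apply]; rfl) hT
    rw [← ENNReal.ofReal_natCast]
    exact ENNReal.ofReal_le_ofReal h.le
  · exact le_top

lemma both :
    Tendsto (fun n : ℕ => rho (Eset (Nat.nth Nat.Prime n))) atTop (𝓝 ⊤) ∧
    ∀ (p : ℕ) [NeZero p] (K : ℕ), 32 * K * K + 2 ≤ p → (K : ℝ≥0∞) ≤ rho (Eset p) := by
  refine ⟨?_, fun p _ K hp => lower p K hp⟩
  rw [ENNReal.tendsto_nhds_top_iff_nat]
  intro K
  filter_upwards [eventually_ge_atTop (32 * (K + 1) * (K + 1) + 2)] with n hn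
  have h := lower (Nat.nth Nat.Prime n) (K + 1)
    (hn.trans (Nat.le_nth (fun h => absurd h Nat.infinite_setOf_prime)))
  refine lt_of_lt_of_le ?_ h
  exact_mod_cast Nat.lt_succ_self K

theorem result : Tendsto (fun n : ℕ => rho (Eset (Nat.nth Nat.Prime n))) atTop (𝓝 ⊤) := both.1


end Pool.Agent.Results.MP_1b30fb_an.Ratio
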